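import Mathlib
import Pool.Agent.U109.HHH.Num

/-!
# The symmetrised product of brackets is not zero
-/

set_option autoImplicit false

namespace Pool.Agent.U109.HHH

open Finset

theorem perm_sum : ∑ σ : Equiv.Perm (Fin 7), G σ = ∑ a : Fin 7 → Fin 7, G a := by
  classical
  have h1 : ∑ σ : Equiv.Perm (Fin 7), G σ =
      ∑ a ∈ (univ : Finset (Equiv.Perm (Fin 7))).image (fun σ : Equiv.Perm (Fin 7) => (⇑σ : Fin 7 → Fin 7)), G a := by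
    rw [sum_image]
    intro σ _ τ _ h
    exact DFunLike.coe_injective h
  rw [h1]
  refine sum_subset (subset_univ _) ?_
  intro a _ ha
  apply G_zero
  intro hinj
  apply ha
  rw [mem_image]
  refine ⟨Equiv.ofBijective a (Finite.injective_iff_bijective.1 hinj), mem_univ _, ?_⟩
  funext x
  exact Equiv.ofBijective_apply a _ x

/-- sums over functions on seven elements -/
theorem nested {X : Type} [Fintype X] [DecidableEq X] (H : X → X → X → X → X → X → X → ℤ) :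
    ∑ a : Fin 7 → X, H (a 0) (a 1) (a 2) (a 3) (a 4) (a 5) (a 6) =
      ∑ x0, ∑ x1, ∑ x2, ∑ x3, ∑ x4, ∑ x5, ∑ x6, H x0 x1 x2 x3 x4 x5 x6 := by
  rw [sum_fun]
  refine sum_congr rfl fun x0 _ => ?_
  rw [sum_fun]
  refine sum_congr rfl fun x1 _ => ?_
  rw [sum_fun]
  refine sum_congr rfl fun x2 _ => ?_
  rw [sum_fun]
  refine sum_congr rfl fun x3 _ => ?_
  rw [sum_fun]
  refine sum_congr rfl fun x4 _ => ?_
  rw [sum_fun]
  refine sum_congr rfl fun x5 _ => ?_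
  rw [sum_fun]
  refine sum_congr rfl fun x6 _ => ?_
  rw [Fintype.sum_unique]
  rfl

/-- the product of the seven determinants -/
def HH (x0 x1 x2 x3 x4 x5 x6 : ℕ) : ℤ :=
  ((tt x3 x4 x5 x6 : ℤ) - 8) * ((tt x1 x2 x5 x6 : ℤ) - 8) * ((tt x1 x2 x3 x4 : ℤ) - 8) *
      ((tt x0 x2 x4 x6 : ℤ) - 8) * ((tt x0 x2 x3 x5 : ℤ) - 8) * ((tt x0 x1 x4 x5 : ℤ) - 8) *
      ((tt x0 x1 x3 x6 : ℤ) - 8)

theorem G_HH (a : Fin 7 → Fin 7) : G a = HH (a 0) (a 1) (a 2) (a 3) (a 4) (a 5) (a 6) := G_eq a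

theorem HH_prune (x0 x1 x2 x3 x4 x5 x6 : ℕ) : HH x0 x1 x2 x3 x4 x5 x6 =
      prune (tt x1 x2 x3 x4) (prune (tt x3 x4 x5 x6)
        (prune (tt x1 x2 x5 x6) (prune (tt x0 x2 x4 x6) (prune (tt x0 x2 x3 x5)
        (prune (tt x0 x1 x4 x5) (((tt x0 x1 x3 x6 : ℕ) : ℤ) - 8)))))) := by
  simp only [prune_eq, HH]
  ring

theorem prune_sum (t : ℕ) (f : Fin 7 → ℤ) :
    ∑ x : Fin 7, prune t (f x) = prune t (∑ x : Fin 7, f x) := by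
  simp only [prune_eq, mul_sum]

theorem inner_sum (x1 x2 x3 x4 x5 x6 : ℕ) :
    ∑ x0 : Fin 7, HH x0 x1 x2 x3 x4 x5 x6 =
      prune (tt x1 x2 x3 x4) (prune (tt x3 x4 x5 x6)
        (prune (tt x1 x2 x5 x6) (sum7 fun x0 => prune (tt x0 x2 x4 x6) (prune (tt x0 x2 x3 x5)
        (prune (tt x0 x1 x4 x5) (((tt x0 x1 x3 x6 : ℕ) : ℤ) - 8)))))) := by
  simp only [HH_prune]
  rw [prune_sum, prune_sum, prune_sum]
  rw [← sum7_eq]

theorem move (H : Fin 7 → Fin 7 → Fin 7 → Fin 7 → Fin 7 → Fin 7 → Fin 7 → ℤ) :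
    ∑ x0, ∑ x1, ∑ x2, ∑ x3, ∑ x4, ∑ x5, ∑ x6, H x0 x1 x2 x3 x4 x5 x6 =
      ∑ x1, ∑ x2, ∑ x3, ∑ x4, ∑ x5, ∑ x6, ∑ x0, H x0 x1 x2 x3 x4 x5 x6 := by
  rw [sum_comm]
  refine sum_congr rfl fun x1 _ => ?_
  rw [sum_comm]
  refine sum_congr rfl fun x2 _ => ?_
  rw [sum_comm]
  refine sum_congr rfl fun x3 _ => ?_
  rw [sum_comm]
  refine sum_congr rfl fun x4 _ => ?_
  rw [sum_comm]
  refine sum_congr rfl fun x5 _ => ?_
  rw [sum_comm]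

theorem s7 (F : Fin 7 → ℤ) (f : ℕ → ℤ) (h : ∀ x : Fin 7, F x = f x) : ∑ x, F x = sum7 f := by
  rw [← sum7_eq]
  exact sum_congr rfl fun x _ => h x

/-- the innermost part of the sum -/
def inn (x1 x2 x3 x4 x5 x6 : ℕ) : ℤ := prune (tt x3 x4 x5 x6)
    (prune (tt x1 x2 x5 x6) (sum7 fun x0 => prune (tt x0 x2 x4 x6) (prune (tt x0 x2 x3 x5)
      (prune (tt x0 x1 x4 x5) (((tt x0 x1 x3 x6 : ℕ) : ℤ) - 8)))))

/-- the part of the sum for four letters -/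
def mid (x1 x2 x3 x4 : ℕ) : ℤ :=
  prune (tt x1 x2 x3 x4) (sum7 fun x5 => sum7 fun x6 => inn x1 x2 x3 x4 x5 x6)

theorem S_eq : S = sum7 fun x1 => sum7 fun x2 => sum7 fun x3 => sum7 fun x4 => mid x1 x2 x3 x4 := rfl

theorem mid_eq (x1 x2 x3 x4 : ℕ) :
    ∑ x5 : Fin 7, ∑ x6 : Fin 7, ∑ x0 : Fin 7, HH x0 x1 x2 x3 x4 x5 x6 = mid x1 x2 x3 x4 := by
  have h3 : ∑ x5 : Fin 7, ∑ x6 : Fin 7, ∑ x0 : Fin 7, HH x0 x1 x2 x3 x4 x5 x6 =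
      prune (tt x1 x2 x3 x4) (∑ x5 : Fin 7, ∑ x6 : Fin 7, inn x1 x2 x3 x4 x5 x6) := by
    rw [← prune_sum]
    refine sum_congr rfl fun x5 _ => ?_
    rw [← prune_sum]
    exact sum_congr rfl fun x6 _ => inner_sum x1 x2 x3 x4 x5 x6
  rw [h3, mid]
  congr 1
  refine s7 _ (fun x5 => sum7 fun x6 => inn x1 x2 x3 x4 x5 x6) fun x5 => ?_
  exact s7 _ (fun x6 => inn x1 x2 x3 x4 x5 x6) fun x6 => rfl

theorem four (M : ℕ → ℕ → ℕ → ℕ → ℤ) :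
    ∑ x1 : Fin 7, ∑ x2 : Fin 7, ∑ x3 : Fin 7, ∑ x4 : Fin 7, M x1 x2 x3 x4 =
      sum7 fun x1 => sum7 fun x2 => sum7 fun x3 => sum7 fun x4 => M x1 x2 x3 x4 := by
  refine s7 _ (fun x1 => sum7 fun x2 => sum7 fun x3 => sum7 fun x4 => M x1 x2 x3 x4) fun x1 => ?_
  refine s7 _ (fun x2 => sum7 fun x3 => sum7 fun x4 => M x1 x2 x3 x4) fun x2 => ?_
  refine s7 _ (fun x3 => sum7 fun x4 => M x1 x2 x3 x4) fun x3 => ?_
  exact s7 _ (fun x4 => M x1 x2 x3 x4) fun x4 => rfl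

theorem fun_sum : ∑ a : Fin 7 → Fin 7, G a = S := by
  have h1 : ∑ a : Fin 7 → Fin 7, G a = ∑ a : Fin 7 → Fin 7,
      (fun x0 x1 x2 x3 x4 x5 x6 : Fin 7 => HH x0 x1 x2 x3 x4 x5 x6) (a 0) (a 1) (a 2) (a 3) (a 4)
        (a 5) (a 6) := sum_congr rfl fun a _ => G_HH a
  rw [h1]
  refine (nested (fun x0 x1 x2 x3 x4 x5 x6 : Fin 7 => HH x0 x1 x2 x3 x4 x5 x6)).trans ?_
  rw [move]
  rw [S_eq, ← four mid]
  exact sum_congr rfl fun x1 _ => sum_congr rfl fun x2 _ => sum_congr rfl fun x3 _ =>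
    sum_congr rfl fun x4 _ => mid_eq x1 x2 x3 x4

theorem perm_val : ∑ σ : Equiv.Perm (Fin 7), G σ = 2016 := by
  rw [perm_sum, fun_sum, S_val]

end Pool.Agent.U109.HHH
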