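import Mathlib
import Pool.Agent.T6.H18.HH.Transfer
import Pool.Agent.U109.HHH.Sum

/-!
# `S_{(7^4)} V` occurs in `S^7(S^4 V)`
-/

set_option autoImplicit false

namespace Pool.Agent.U109.HHH

open Finset Pool.Agent.T6.H18.HH

/-- the homomorphism from `V^{⊗28}` to `S^7(S^4 V)`: the four slots of the seven brackets are
distributed to seven blocks of four factors, and the result is symmetrised -/
noncomputable def ff (m : ℕ) (w : Tensor m (Fin 7 × Fin 4)) : Tensor m (Fin 7 × Fin 4) :=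
  sym (mv pi28 w)

theorem act_sym {m k l : ℕ} (g : Matrix (Fin m) (Fin m) ℂ) (t : Tensor m (Fin k × Fin l)) :
    act g (sym t) = sym (act g t) := by
  rw [sym, sym, act_symOut, act_symIn]

theorem sym_add {m k l : ℕ} (s t : Tensor m (Fin k × Fin l)) : sym (s + t) = sym s + sym t := by
  ext a
  simp only [sym, symOut, symIn, Pi.add_apply, mul_add, sum_add_distrib]

theorem sym_smul {m k l : ℕ} (c : ℂ) (t : Tensor m (Fin k × Fin l)) :
    sym (c • t) = c • sym t := by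
  simp only [sym, symIn_eq, symOut_eq, mv_smul, ← smul_sum]
  simp only [smul_comm c]

theorem ff_act {m : ℕ} (g : Matrix (Fin m) (Fin m) ℂ) (w : Tensor m (Fin 7 × Fin 4)) :
    act g (ff m w) = ff m (act g w) := by
  rw [ff, ff, act_sym, act_mv]

theorem ff_add {m : ℕ} (w w' : Tensor m (Fin 7 × Fin 4)) : ff m (w + w') = ff m w + ff m w' := by
  rw [ff, ff, ff, ← sym_add]
  rfl

theorem ff_smul {m : ℕ} (c : ℂ) (w : Tensor m (Fin 7 × Fin 4)) : ff m (c • w) = c • ff m w := by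
  rw [ff, ff, ← sym_smul]
  rfl

theorem ff_mem {m : ℕ} (w : Tensor m (Fin 7 × Fin 4)) : ff m w ∈ SdSn m 7 4 := sym_mem _

/-- the vectors as complex vectors, transposed -/
def vv (k : Fin 4) (t : Fin 7) : ℂ := (vec t k : ℂ)

theorem wedge_val (b : Fin 7 → Fin 7) :
    wedgePow 7 vv (fun x => b (pi28 x).1) = (G b : ℂ) := by
  simp only [wedgePow, G]
  push_cast
  refine prod_congr rfl fun i _ => ?_
  rfl

theorem ff_val : ff 7 (wedgePow 7 vv) (fun x => x.1) = ((Nat.factorial 7 : ℕ) : ℂ)⁻¹ * 2016 := by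
  have h1 : ∀ σ : Equiv.Perm (Fin 7), symIn (mv pi28 (wedgePow 7 vv)) (fun x => σ x.1) =
      (G σ : ℂ) := by
    intro σ
    rw [← wedge_val]
    simp only [symIn, mv]
    rw [sum_const, card_univ, Fintype.card_fun, Fintype.card_perm, Fintype.card_fin,
      Fintype.card_fin, nsmul_eq_mul, ← mul_assoc]
    push_cast
    rw [inv_mul_cancel₀ (pow_ne_zero _ (fact_ne 4)), one_mul]
  have h2 : ff 7 (wedgePow 7 vv) (fun x => x.1) = ((Nat.factorial 7 : ℕ) : ℂ)⁻¹ *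
      ∑ σ : Equiv.Perm (Fin 7), symIn (mv pi28 (wedgePow 7 vv)) (fun x => σ x.1) := rfl
  rw [h2]
  simp only [h1]
  rw [← Int.cast_sum, perm_val]
  norm_num

theorem ff_ne : ff 7 (wedgePow 7 vv) ≠ 0 := by
  intro h
  have h1 := ff_val
  rw [h] at h1
  have h2 : ((Nat.factorial 7 : ℕ) : ℂ)⁻¹ * 2016 ≠ 0 :=
    mul_ne_zero (inv_ne_zero (fact_ne 7)) (by norm_num)
  exact h2 h1.symm

/-- the highest weight vector -/
noncomputable def hw {m n : ℕ} (d : ℕ) (h : n ≤ m) : Tensor m (Fin d × Fin n) :=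
  wedgePow d (fun k : Fin n => Pi.single (Fin.castLE h k) 1)

theorem hw_supp {m n d : ℕ} (h : n ≤ m) (a : Fin d × Fin n → Fin m) (x : Fin d × Fin n)
    (hx : n ≤ (a x : ℕ)) : hw d h a = 0 := by
  rw [hw, wedgePow]
  refine prod_eq_zero (mem_univ x.1) ?_
  refine Matrix.det_eq_zero_of_row_eq_zero x.2 ?_
  intro k
  rw [Matrix.of_apply, Pi.single_apply, if_neg]
  intro hc
  have h1 : ((a (x.1, x.2) : Fin m) : ℕ) = k := by rw [hc]; rfl
  have h2 := k.2
  have h3 : (a x : ℕ) = k := h1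
  omega

theorem ff_supp {m : ℕ} (h : 4 ≤ m) (a : Fin 7 × Fin 4 → Fin m) (x : Fin 7 × Fin 4)
    (hx : 4 ≤ (a x : ℕ)) : ff m (hw 7 h) a = 0 := by
  rw [ff, sym]
  simp only [symOut, symIn, mv]
  rw [sum_eq_zero, mul_zero]
  intro σ _
  rw [sum_eq_zero, mul_zero]
  intro τ _
  obtain ⟨y, hy⟩ : ∃ y, ((eIn τ).trans (eOut σ)) y = x := ((eIn τ).trans (eOut σ)).surjective x
  obtain ⟨z, hz⟩ := pi28.surjective y
  apply hw_supp h _ z
  have h2 : (σ ((pi28 z).1), τ (pi28 z).1 (pi28 z).2) = x := by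
    rw [hz, ← hy]
    rfl
  rw [h2]
  exact hx

theorem ff_hw_ne7 (h : 4 ≤ 7) : ff 7 (hw 7 h) ≠ 0 := by
  intro h0
  apply ff_ne
  have h1 : wedgePow 7 vv = act (Matrix.of fun t k : Fin 7 => if hk : (k : ℕ) < 4 then vv ⟨k, hk⟩ t
      else 0) (hw 7 h) := by
    rw [hw, act_wedge]
    congr 1
    funext k t
    rw [Matrix.mulVec_single_one]
    simp only [Matrix.col_apply, Matrix.of_apply, Fin.val_castLE]
    rw [dif_pos k.2]
  rw [h1, ← ff_act, h0]
  ext a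
  simp [act]

theorem ff_res {m : ℕ} (h : 4 ≤ m) : res h (ff m (hw 7 h)) = ff 4 (ww 4 7) := by
  rw [← res_wedge h]
  rfl

theorem ff_ww_ne : ff 4 (ww 4 7) ≠ 0 := by
  intro h0
  have h47 : 4 ≤ 7 := by norm_num
  apply ff_hw_ne7 h47
  ext a
  by_cases hx : ∃ x, 4 ≤ (a x : ℕ)
  · obtain ⟨x, hx⟩ := hx
    exact ff_supp h47 a x hx
  · push Not at hx
    have h1 := ff_res h47
    rw [h0] at h1
    have h2 := congrFun h1 (fun x => ⟨a x, hx x⟩)
    exact h2

theorem ff_hw_ne {m : ℕ} (h : 4 ≤ m) : ff m (hw 7 h) ≠ 0 := by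
  intro h0
  apply ff_ww_ne
  rw [← ff_res h, h0]
  rfl

/-- `S_{(7^4)} V` occurs in `S^7(S^4 V)` -/
theorem occurs (m : ℕ) (h : 4 ≤ m) : ∃ t ∈ isotypic m 7 4, t ≠ 0 := by
  refine ⟨ff m (hw 7 h), Submodule.subset_span ⟨ff m, ⟨?_, ?_, ?_⟩, ?_, hw 7 h,
    Submodule.subset_span ⟨_, rfl⟩, rfl⟩, ff_hw_ne h⟩
  · intro w _ w' _
    exact ff_add w w'
  · intro c w _
    exact ff_smul c w
  · intro g w _
    exact (ff_act g.1 w).symm
  · intro w _
    exact ff_mem w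

end Pool.Agent.U109.HHH
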