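import Mathlib
import Pool.Agent.T6.H18.HH.Transfer
import Pool.Agent.U109.HHH.Occ

/-!
# For odd `d` the map `h_{d,n}` vanishes on the `S_{(d^n)} V`-isotypic component
-/

set_option autoImplicit false

namespace Pool.Agent.U109.HHH

open Finset Pool.Agent.T6.H18.HH

theorem act_diag {m : ℕ} {ι : Type} [Fintype ι] [DecidableEq ι] (z : Fin m → ℂ) (t : Tensor m ι)
    (a : ι → Fin m) : act (Matrix.diagonal z) t a = (∏ x, z (a x)) * t a := by
  classical
  simp only [act]
  rw [sum_eq_single a]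
  · simp
  · intro b _ hb
    obtain ⟨x, hx⟩ : ∃ x, a x ≠ b x := by
      by_contra hc
      push Not at hc
      exact hb (funext fun x => (hc x).symm)
    have h0 : ∏ x, Matrix.diagonal z (a x) (b x) = 0 :=
      prod_eq_zero (mem_univ x) (Matrix.diagonal_apply_ne z hx)
    rw [h0, zero_mul]
  · intro h
    exact absurd (mem_univ a) h

/-- a continuity argument: the evaluations at invertible matrices suffice -/
theorem eval_all {n d : ℕ} (ψ : Tensor n (Fin n × Fin d)) (a : Fin n × Fin d → Fin n)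
    (h : ∀ Y : Matrix (Fin n) (Fin n) ℂ, Y.det ≠ 0 → act Y ψ a = 0)
    (Y : Matrix (Fin n) (Fin n) ℂ) : act Y ψ a = 0 := by
  let φ : ℂ → ℂ := fun ε => act (Matrix.scalar (Fin n) ε - (-Y)) ψ a
  have hc : Continuous φ := by
    simp only [φ, act]
    refine continuous_finsetSum _ fun b _ => ?_
    refine Continuous.mul ?_ continuous_const
    refine continuous_finsetProd _ fun x _ => ?_
    simp only [Matrix.sub_apply, Matrix.scalar_apply, Matrix.diagonal_apply]
    refine Continuous.sub ?_ continuous_const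
    split_ifs
    · exact continuous_id
    · exact continuous_const
  have hfin : {ε : ℂ | (-Y).charpoly.IsRoot ε}.Finite :=
    Polynomial.finite_setOfPred_isRoot (Matrix.charpoly_monic (-Y)).ne_zero
  have hd : Dense ({ε : ℂ | (-Y).charpoly.IsRoot ε}ᶜ) := hfin.countable.dense_compl ℝ
  have h1 : φ = fun _ => 0 := by
    refine Continuous.ext_on hd hc continuous_const ?_
    intro ε hε
    apply h
    intro h0
    apply hε
    rw [Set.mem_ofPred_eq, Polynomial.IsRoot.def, Matrix.eval_charpoly, h0]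
  have h2 := congrFun h1 0
  simp only [φ] at h2
  rw [map_zero, zero_sub, neg_neg] at h2
  exact h2

/-- semi-invariant block symmetric tensors of odd weight vanish -/
theorem semi_zero {n d : ℕ} (hn : 2 ≤ n) (hd : Odd d) (ψ : Tensor n (Fin n × Fin d))
    (hψ : ψ ∈ SdSn n n d)
    (h : ∀ Y : Matrix (Fin n) (Fin n) ℂ, Y.det ≠ 0 → act Y ψ = Y.det ^ d • ψ) : ψ = 0 := by
  have h0 : ψ (fun x => x.1) = 0 := by
    let σ : Equiv.Perm (Fin n) := Equiv.swap ⟨0, by omega⟩ ⟨1, by omega⟩
    have hσ : Equiv.Perm.sign σ = -1 := Equiv.Perm.sign_swap (by simp [Fin.ext_iff])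
    have e1 : ψ (fun x => σ x.1) = ψ (fun x => x.1) := hψ.2 σ (fun x => x.1)
    have e2 : ψ (fun x => σ x.1) = - ψ (fun x => x.1) := by
      have hdet : Matrix.det (Matrix.of fun j k => if σ j = k then (1 : ℂ) else 0) = -1 := by
        rw [det_perm, hσ]
        simp
      rw [← act_perm σ ψ (fun x => x.1), h _ (by rw [hdet]; norm_num), hdet, Pi.smul_apply,
        hd.neg_one_pow, neg_one_smul]
    rw [e1] at e2
    exact self_eq_neg.1 e2
  apply eq_zero_of_eval ψ hψ.1
  refine eval_all ψ _ fun Y hY => ?_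
  rw [h Y hY, Pi.smul_apply, h0, smul_zero]

section main

variable {m d n : ℕ} (hnm : n ≤ m) (f : Tensor m (Fin d × Fin n) → Tensor m (Fin d × Fin n))
  (hf : IsHom f)

theorem hw_mem : hw d hnm ∈ rect m d n := Submodule.subset_span ⟨_, rfl⟩

include hf

theorem supp (a : Fin d × Fin n → Fin m) (x : Fin d × Fin n) (hx : n ≤ (a x : ℕ)) :
    f (hw d hnm) a = 0 := by
  let z : Fin m → ℂ := fun j => if j = a x then 2 else 1
  have hz : ∀ j, z j ≠ 0 := by
    intro j
    simp only [z]
    split_ifs <;> norm_num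
  have hdet : (Matrix.diagonal z).det ≠ 0 := by
    rw [Matrix.det_diagonal]
    exact prod_ne_zero_iff.2 fun j _ => hz j
  let g : GL (Fin m) ℂ := Matrix.GeneralLinearGroup.mkOfDetNeZero (Matrix.diagonal z) hdet
  have hg : g.1 = Matrix.diagonal z := rfl
  have h1 : act g.1 (hw d hnm) = hw d hnm := by
    rw [hg, hw, act_wedge]
    congr 1
    funext k
    rw [Matrix.mulVec_single_one]
    ext j
    rw [Matrix.col_apply, Matrix.diagonal_apply, Pi.single_apply]
    by_cases hj : j = Fin.castLE hnm k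
    · rw [if_pos hj, if_pos hj]
      simp only [z]
      rw [if_neg]
      intro hc
      have h2 : ((a x : Fin m) : ℕ) = k := by rw [← hc, hj]; rfl
      have h3 := k.2
      omega
    · rw [if_neg hj, if_neg hj]
  have h2 := hf.2.2 g (hw d hnm) (hw_mem hnm)
  rw [h1, hg] at h2
  have h3 := congrFun h2 a
  rw [act_diag] at h3
  have h4 : ∏ y, z (a y) = 2 ^ (univ.filter fun y => a y = a x).card := by
    simp only [z]
    rw [prod_ite]
    simp
  have h5 : (1 : ℕ) ≤ (univ.filter fun y => a y = a x).card :=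
    card_pos.2 ⟨x, by simp⟩
  have h6 : (∏ y, z (a y)) ≠ 1 := by
    rw [h4]
    obtain ⟨c, hc⟩ := Nat.exists_eq_add_of_le h5
    rw [hc]
    have h7 : ((2 : ℂ) ^ (1 + c)) = ((2 ^ (1 + c) : ℕ) : ℂ) := by push_cast; rfl
    rw [h7]
    have h8 : 2 ^ (1 + c) ≠ 1 := by
      have : 2 ^ 1 ≤ 2 ^ (1 + c) := Nat.pow_le_pow_right (by norm_num) (by omega)
      omega
    exact_mod_cast h8
  have h9 : (∏ y, z (a y) - 1) * f (hw d hnm) a = 0 := by
    rw [sub_mul, one_mul, ← h3, sub_self]
  rcases mul_eq_zero.1 h9 with h10 | h10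
  · exact absurd (sub_eq_zero.1 h10) h6
  · exact h10

end main

/-- the block matrix with blocks `Y` and `1` -/
noncomputable def emb {n r : ℕ} (Y : Matrix (Fin n) (Fin n) ℂ) :
    Matrix (Fin (n + r)) (Fin (n + r)) ℂ :=
  Matrix.reindex finSumFinEquiv finSumFinEquiv (Matrix.fromBlocks Y 0 0 (1 : Matrix (Fin r) (Fin r) ℂ))

theorem emb_det {n r : ℕ} (Y : Matrix (Fin n) (Fin n) ℂ) : (emb (r := r) Y).det = Y.det := by
  rw [emb, Matrix.det_reindex_self, Matrix.det_fromBlocks_zero₂₁, Matrix.det_one, mul_one]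

theorem emb_apply {n r : ℕ} (Y : Matrix (Fin n) (Fin n) ℂ) (i j : Fin n) :
    emb (r := r) Y (Fin.castAdd r i) (Fin.castAdd r j) = Y i j := by
  simp [emb]

theorem emb_zero {n r : ℕ} (Y : Matrix (Fin n) (Fin n) ℂ) (i : Fin r) (j : Fin n) :
    emb (r := r) Y (Fin.natAdd n i) (Fin.castAdd r j) = 0 := by
  simp [emb]

theorem act_emb_hw {n r d : ℕ} (Y : Matrix (Fin n) (Fin n) ℂ) :
    act (emb (r := r) Y) (hw d (Nat.le_add_right n r)) = Y.det ^ d • hw d (Nat.le_add_right n r) := by
  rw [hw, act_wedge]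
  ext a
  simp only [wedgePow, Pi.smul_apply, smul_eq_mul]
  have h : ∀ i : Fin d, Matrix.det (Matrix.of fun j k => ((emb (r := r) Y).mulVec
      (Pi.single (Fin.castLE (Nat.le_add_right n r) k) 1)) (a (i, j))) =
      Y.det * Matrix.det (Matrix.of fun j k =>
        (Pi.single (Fin.castLE (Nat.le_add_right n r) k) 1 : Fin (n + r) → ℂ) (a (i, j))) := by
    intro i
    rw [mul_comm, ← Matrix.det_mul]
    congr 1
    ext j k
    rw [Matrix.mul_apply, Matrix.of_apply, Matrix.mulVec_single_one, Matrix.col_apply]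
    simp only [Matrix.of_apply, Pi.single_apply]
    by_cases hx : (a (i, j) : ℕ) < n
    · obtain ⟨l, hl⟩ : ∃ l : Fin n, a (i, j) = Fin.castLE (Nat.le_add_right n r) l :=
        ⟨⟨a (i, j), hx⟩, rfl⟩
      rw [hl, sum_eq_single l]
      · rw [if_pos rfl, one_mul]
        exact emb_apply Y l k
      · intro l' _ hl'
        rw [if_neg, zero_mul]
        intro hc
        exact hl' (Fin.castLE_injective _ hc).symm
      · intro hl'
        exact absurd (mem_univ l) hl'
    · obtain ⟨l, hl⟩ : ∃ l : Fin r, a (i, j) = Fin.natAdd n l :=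
        ⟨⟨a (i, j) - n, by omega⟩, by ext; simp; omega⟩
      rw [hl, sum_eq_zero]
      · exact emb_zero Y l k
      · intro l' _
        rw [if_neg, zero_mul]
        intro hc
        have h1 := congrArg Fin.val hc
        simp at h1
        omega
  simp only [h]
  rw [prod_mul_distrib, prod_const, card_univ, Fintype.card_fin]

theorem res_act {n r : ℕ} {ι : Type} [Fintype ι] [DecidableEq ι] (Y : Matrix (Fin n) (Fin n) ℂ)
    (U : Tensor (n + r) ι) (hU : ∀ a : ι → Fin (n + r), ∀ x, n ≤ (a x : ℕ) → U a = 0) :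
    res (Nat.le_add_right n r) (act (emb Y) U) = act Y (res (Nat.le_add_right n r) U) := by
  classical
  ext a
  simp only [res, act]
  symm
  apply Fintype.sum_of_injective (fun (b : ι → Fin n) x => Fin.castLE (Nat.le_add_right n r) (b x))
  · intro b b' h
    funext x
    exact Fin.castLE_injective _ (congrFun h x)
  · intro b hb
    obtain ⟨x, hx⟩ : ∃ x, n ≤ (b x : ℕ) := by
      by_contra hc
      push Not at hc
      exact hb ⟨fun x => ⟨b x, hc x⟩, rfl⟩
    rw [hU b x hx, mul_zero]
  · intro b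
    congr 1
    refine prod_congr rfl fun x _ => ?_
    exact (emb_apply Y (a x) (b x)).symm

theorem hhh_supp {m k l n : ℕ} (U : Tensor m (Fin k × Fin l))
    (hU : ∀ a : Fin k × Fin l → Fin m, ∀ x, n ≤ (a x : ℕ) → U a = 0) (a : Fin l × Fin k → Fin m)
    (x : Fin l × Fin k) (hx : n ≤ (a x : ℕ)) : hhh U a = 0 := by
  simp only [hhh, symOut, symIn, regroup]
  rw [sum_eq_zero, mul_zero]
  intro σ _
  rw [sum_eq_zero, mul_zero]
  intro τ _
  obtain ⟨y, hy⟩ : ∃ y, ((eIn τ).trans (eOut σ)) y = x := ((eIn τ).trans (eOut σ)).surjective x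
  apply hU _ (y.2, y.1)
  have h2 : (σ y.1, τ y.1 y.2) = x := hy
  rw [h2]
  exact hx

theorem hhh_hw_zero {n r d : ℕ} (hn : 2 ≤ n) (hd : Odd d)
    (f : Tensor (n + r) (Fin d × Fin n) → Tensor (n + r) (Fin d × Fin n)) (hf : IsHom f) :
    hhh (f (hw d (Nat.le_add_right n r))) = 0 := by
  have hs := supp (Nat.le_add_right n r) f hf
  have hY : ∀ Y : Matrix (Fin n) (Fin n) ℂ, Y.det ≠ 0 →
      act Y (res (Nat.le_add_right n r) (f (hw d (Nat.le_add_right n r)))) =
        Y.det ^ d • res (Nat.le_add_right n r) (f (hw d (Nat.le_add_right n r))) := by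
    intro Y hY0
    have hdet : (emb (r := r) Y).det ≠ 0 := by rwa [emb_det]
    let g : GL (Fin (n + r)) ℂ := Matrix.GeneralLinearGroup.mkOfDetNeZero (emb Y) hdet
    have hg : g.1 = emb Y := rfl
    have h2 := hf.2.2 g (hw d (Nat.le_add_right n r)) (hw_mem _)
    rw [hg, act_emb_hw, hf.2.1 _ _ (hw_mem _)] at h2
    rw [← res_act Y _ hs, ← h2]
    rfl
  have h1 : hhh (res (Nat.le_add_right n r) (f (hw d (Nat.le_add_right n r)))) = 0 := by
    apply semi_zero hn hd _ (hhh_mem _)
    intro Y hY0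
    rw [act_hhh, hY Y hY0, hhh_smul]
  ext a
  by_cases hx : ∃ x, n ≤ (a x : ℕ)
  · obtain ⟨x, hx⟩ := hx
    exact hhh_supp _ hs a x hx
  · push Not at hx
    rw [← res_hhh] at h1
    exact congrFun h1 (fun x => ⟨a x, hx x⟩)

theorem sumExtend_inl {K V ι : Type*} [Field K] [AddCommGroup V] [Module K V] {v : ι → V}
    (hv : LinearIndependent K v) (k : ι) : Module.Basis.sumExtend hv (Sum.inl k) = v k := by
  classical
  simp only [Module.Basis.sumExtend]
  rw [Module.Basis.reindex_apply]
  rw [Module.Basis.extend_apply_self]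
  rw [Equiv.symm_symm]
  rfl

theorem exists_gl {n r : ℕ} (v : Fin n → Fin (n + r) → ℂ) (hv : LinearIndependent ℂ v) :
    ∃ g : GL (Fin (n + r)) ℂ, ∀ k : Fin n,
      g.1.mulVec (Pi.single (Fin.castLE (Nat.le_add_right n r) k) 1) = v k := by
  classical
  let b := Module.Basis.sumExtend hv
  have hfin : Finite (Fin n ⊕ Module.Basis.sumExtendIndex hv) := Module.Finite.finite_basis b
  have hfin2 : Finite (Module.Basis.sumExtendIndex hv) := Finite.sum_right (Fin n)
  have := Fintype.ofFinite (Module.Basis.sumExtendIndex hv)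
  have hcard := Module.finrank_eq_card_basis b
  rw [Module.finrank_fin_fun, Fintype.card_sum, Fintype.card_fin] at hcard
  have hc2 : Fintype.card (Fin r) = Fintype.card (Module.Basis.sumExtendIndex hv) := by
    rw [Fintype.card_fin]
    omega
  let e : Fin r ≃ Module.Basis.sumExtendIndex hv := Fintype.equivOfCardEq hc2
  let b' : Module.Basis (Fin (n + r)) ℂ (Fin (n + r) → ℂ) :=
    b.reindex ((Equiv.sumCongr (Equiv.refl _) e.symm).trans finSumFinEquiv)
  have hb : ∀ k : Fin n, b' (Fin.castLE (Nat.le_add_right n r) k) = v k := by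
    intro k
    rw [Module.Basis.reindex_apply]
    have h1 : ((Equiv.sumCongr (Equiv.refl (Fin n)) e.symm).trans finSumFinEquiv).symm
        (Fin.castLE (Nat.le_add_right n r) k) = Sum.inl k := by
      rw [Equiv.symm_apply_eq]
      rfl
    rw [h1, sumExtend_inl]
  refine ⟨⟨(Pi.basisFun ℂ (Fin (n + r))).toMatrix b', b'.toMatrix (Pi.basisFun ℂ (Fin (n + r))),
    Module.Basis.toMatrix_mul_toMatrix_flip _ _, Module.Basis.toMatrix_mul_toMatrix_flip _ _⟩, ?_⟩
  intro k
  rw [Matrix.mulVec_single_one, ← hb k]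
  ext j
  rw [Matrix.col_apply]
  change (Pi.basisFun ℂ (Fin (n + r))).toMatrix b' j _ = _
  rw [Module.Basis.toMatrix_apply, Pi.basisFun_repr]

theorem wedge_dep {m n d : ℕ} (hd : Odd d) (v : Fin n → Fin m → ℂ) (hv : ¬ LinearIndependent ℂ v) :
    wedgePow d v = 0 := by
  classical
  rw [Fintype.not_linearIndependent_iff] at hv
  obtain ⟨c, hc, k, hk⟩ := hv
  ext a
  have hd0 : 0 < d := hd.pos
  simp only [wedgePow, Pi.zero_apply]
  refine prod_eq_zero (mem_univ ⟨0, hd0⟩) ?_
  rw [← Matrix.exists_mulVec_eq_zero_iff]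
  refine ⟨c, fun h => hk (congrFun h k), ?_⟩
  ext j
  have h1 := congrFun hc (a (⟨0, hd0⟩, j))
  simp only [Finset.sum_apply, Pi.smul_apply, smul_eq_mul, Pi.zero_apply] at h1
  simp only [Matrix.mulVec, dotProduct, Matrix.of_apply, Pi.zero_apply]
  rw [← h1]
  exact sum_congr rfl fun i _ => mul_comm _ _

/-- **For odd `d` the map `h_{d,n}` vanishes on the `S_{(d^n)} V`-isotypic component.** -/
theorem vanish {m d n : ℕ} (hn : 2 ≤ n) (hnm : n ≤ m) (hd : Odd d) :
    ∀ t ∈ isotypic m d n, hhh t = 0 := by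
  obtain ⟨r, rfl⟩ := Nat.exists_eq_add_of_le hnm
  intro t ht
  have h1 : isotypic (n + r) d n ≤ LinearMap.ker (hhhL (n + r) d n) := by
    rw [isotypic, Submodule.span_le]
    rintro _ ⟨f, hf, _, w, hwr, rfl⟩
    change hhh (f w) = 0
    unfold rect at hwr
    have h0 : f 0 = 0 := by
      have h2 := hf.2.1 0 0 (Submodule.zero_mem _)
      rwa [zero_smul, zero_smul] at h2
    induction hwr using Submodule.span_induction with
    | mem w hwm =>
      obtain ⟨v, rfl⟩ := hwm
      by_cases hv : LinearIndependent ℂ v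
      · obtain ⟨g, hg⟩ := exists_gl v hv
        have h2 := hf.2.2 g (hw d (Nat.le_add_right n r)) (hw_mem _)
        have h3 : act g.1 (hw d (Nat.le_add_right n r)) = wedgePow d v := by
          rw [hw, act_wedge]
          congr 1
          funext k
          exact hg k
        rw [← h3, h2, ← act_hhh, hhh_hw_zero hn hd f hf]
        ext a
        simp [act]
      · rw [wedge_dep hd v hv, h0]
        exact LinearMap.map_zero (hhhL (n + r) d n)
    | zero =>
      rw [h0]
      exact LinearMap.map_zero (hhhL (n + r) d n)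
    | add x y hx hy hx' hy' =>
      rw [hf.1 x hx y hy, hhh_add, hx', hy', add_zero]
    | smul c x hx hx' =>
      rw [hf.2.1 c x hx, hhh_smul, hx', smul_zero]
  exact h1 ht

end Pool.Agent.U109.HHH
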